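import Pool.Agent.Y738.PE.Stm3
import Pool.Agent.Y65.PE.Bound

/-! # PE3-E7b: linearity and reality of the energy -/

set_option autoImplicit false

open scoped BigOperators ComplexConjugate Classical Topology

noncomputable section

namespace Pool.Agent.Y675.PE

open Pool.Agent.Y738.PE

theorem hermOf_add {d q : ℕ} (X Y : BConf d q → BConf d q → ℝ) (t : ℝ) (σ τ : BConf d q) :
    hermOf (X + t • Y) σ τ = hermOf X σ τ + (t : ℂ) * hermOf Y σ τ := by
  unfold hermOf
  simp only [Pi.add_apply, Pi.smul_apply, smul_eq_mul]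
  push_cast
  ring

theorem hermOf_conj {d q : ℕ} (X : BConf d q → BConf d q → ℝ) (σ τ : BConf d q) :
    conj (hermOf X σ τ) = hermOf X τ σ := by
  unfold hermOf
  simp only [map_add, map_mul, Complex.conj_ofReal, Complex.conj_I]
  push_cast
  ring

theorem expec_lin {d q L : ℕ} [NeZero L] (X Y : BConf d q → BConf d q → ℝ) (t : ℝ)
    (Ψ : Conf d L → ℂ) (v : Site L) : expec Ψ v (hermOf (X + t • Y)) =
      expec Ψ v (hermOf X) + (t : ℂ) * expec Ψ v (hermOf Y) := by
  unfold expec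
  rw [Finset.mul_sum, ← Finset.sum_add_distrib]
  refine Finset.sum_congr rfl fun s _ => ?_
  rw [Finset.mul_sum, ← Finset.sum_add_distrib]
  refine Finset.sum_congr rfl fun τ _ => ?_
  rw [hermOf_add]
  ring

theorem ham_lin {d q L : ℕ} [NeZero L] (X Y : BConf d q → BConf d q → ℝ) (t : ℝ)
    (Ψ : Conf d L → ℂ) (s : Conf d L) : ham (hermOf (X + t • Y)) L Ψ s =
      ham (hermOf X) L Ψ s + (t : ℂ) * ham (hermOf Y) L Ψ s := by
  unfold ham
  rw [Finset.mul_sum, ← Finset.sum_add_distrib]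
  refine Finset.sum_congr rfl fun v _ => ?_
  rw [Finset.mul_sum, ← Finset.sum_add_distrib]
  refine Finset.sum_congr rfl fun τ _ => ?_
  rw [hermOf_add]
  ring

theorem en_lin {d q L : ℕ} [NeZero L] (X Y : BConf d q → BConf d q → ℝ) (t : ℝ)
    (Ψ : Conf d L → ℂ) : en (hermOf (X + t • Y)) L Ψ =
      en (hermOf X) L Ψ + t * en (hermOf Y) L Ψ := by
  unfold en
  have h : ∑ s, conj (Ψ s) * ham (hermOf (X + t • Y)) L Ψ s =
      ∑ s, conj (Ψ s) * ham (hermOf X) L Ψ s + (t : ℂ) * ∑ s, conj (Ψ s) * ham (hermOf Y) L Ψ s := by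
    rw [Finset.mul_sum, ← Finset.sum_add_distrib]
    refine Finset.sum_congr rfl fun s _ => ?_
    rw [ham_lin]
    ring
  rw [h, Complex.add_re, Complex.re_ofReal_mul]

theorem expec_conj {d q L : ℕ} [NeZero L] (hq : q ≤ L) (X : BConf d q → BConf d q → ℝ)
    (Ψ : Conf d L → ℂ) (v : Site L) : conj (expec Ψ v (hermOf X)) = expec Ψ v (hermOf X) := by
  unfold expec
  rw [map_sum]
  simp only [map_sum, map_mul, hermOf_conj, Complex.conj_conj]
  have e1 : ∑ x : Conf d L × BConf d q,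
      Ψ x.1 * hermOf X x.2 (box q x.1 v) * conj (Ψ (put x.1 v x.2)) =
      ∑ x : Conf d L × BConf d q, conj (Ψ x.1) * hermOf X (box q x.1 v) x.2 *
        Ψ (put x.1 v x.2) := by
    refine Fintype.sum_equiv (Y65.PE.exch (fun s => box q s v) (fun s τ => put s v τ)
      (fun s σ => Y65.PE.box_put hq s v σ) (fun s σ τ => Y65.PE.put_put s v σ τ)
      (fun s => Y65.PE.put_box s v)) _ _ fun x => ?_
    obtain ⟨s, τ⟩ := x
    show Ψ s * hermOf X τ (box q s v) * conj (Ψ (put s v τ)) =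
      conj (Ψ (put s v τ)) * hermOf X (box q (put s v τ) v) (box q s v) *
        Ψ (put (put s v τ) v (box q s v))
    rw [Y65.PE.box_put hq, Y65.PE.put_put, Y65.PE.put_box]
    ring
  rw [Fintype.sum_prod_type, Fintype.sum_prod_type] at e1
  exact e1

theorem energyB : StmEnergyB := by
  refine ⟨?_, ?_, ?_⟩
  · intro d q L _ X Y t Ψ v
    exact expec_lin X Y t Ψ v
  · intro d q L _ X Y t Ψ
    exact en_lin X Y t Ψ
  · intro d q L _ hq X Ψ v
    exact Complex.conj_eq_iff_im.1 (expec_conj hq X Ψ v)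

end Pool.Agent.Y675.PE
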